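import Mathlib

open scoped ComplexOrder

namespace Pool.Agent.Lib.MP_f16f70_an

variable {A : Type*} [CStarAlgebra A]

/-- A state on a unital C*-algebra: a positive linear functional with value `1` at the unit. -/
structure IsState (φ : A →ₗ[ℂ] ℂ) : Prop where
  pos : ∀ a, 0 ≤ φ (star a * a)
  one : φ 1 = 1

/-- A pure state: every positive functional dominated by it is a scalar multiple of it. -/
structure IsPureState (φ : A →ₗ[ℂ] ℂ) : Prop extends IsState φ where
  pure : ∀ ω : A →ₗ[ℂ] ℂ, (∀ a, 0 ≤ ω (star a * a)) →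
    (∀ a, ω (star a * a) ≤ φ (star a * a)) → ∃ t : ℂ, ∀ a, ω a = t * φ a

/-- Voiculescu freeness of a family of subsets (subalgebras) `B i` with respect to the
functional `Φ`: every non-empty alternating product of centred elements has value `0`. -/
def IsFreeFamily {I : Type*} (Φ : A →ₗ[ℂ] ℂ) (B : I → Set A) : Prop :=
  ∀ l : List (I × A), l ≠ [] → l.IsChain (fun x y => x.1 ≠ y.1) →
    (∀ x ∈ l, x.2 ∈ B x.1 ∧ Φ x.2 = 0) → Φ (l.map Prod.snd).prod = 0

/-- `A` with the state `Φ` is the reduced free product of its unital C*-subalgebras `B i`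
(with the states `Φ|B i`): `Φ` is a state with faithful GNS representation, the `B i` are
free with respect to `Φ`, and they generate `A` as a C*-algebra. -/
structure IsReducedFreeProduct {I : Type*} (Φ : A →ₗ[ℂ] ℂ) (B : I → Set A) : Prop where
  state : IsState Φ
  free : IsFreeFamily Φ B
  generates : (StarAlgebra.adjoin ℂ (⋃ i, B i)).topologicalClosure = ⊤
  gns_faithful : ∀ a : A, (∀ b : A, Φ (star b * (star a * a) * b) = 0) → a = 0

/-! ### Continuity of positive functionals -/

theorem continuous_of_pos (ω : A →ₗ[ℂ] ℂ) (hω : ∀ a, 0 ≤ ω (star a * a)) : Continuous ω := by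
  letI := CStarAlgebra.spectralOrder A
  haveI := CStarAlgebra.spectralOrderedRing A
  have h : ∀ x : A, 0 ≤ x → 0 ≤ ω x := by
    intro x hx
    obtain ⟨y, rfl⟩ := CStarAlgebra.nonneg_iff_eq_star_mul_self.mp hx
    exact hω y
  have := (PositiveLinearMap.mk₀ ω h)
  have hc : Continuous (PositiveLinearMap.mk₀ ω h) := map_continuous _
  exact hc

/-- Hermitian symmetry of positive functionals. -/
theorem pos_star (ω : A →ₗ[ℂ] ℂ) (hω : ∀ a, 0 ≤ ω (star a * a)) (a : A) :
    ω (star a) = star (ω a) := by
  letI := CStarAlgebra.spectralOrder A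
  haveI := CStarAlgebra.spectralOrderedRing A
  have h : ∀ x : A, 0 ≤ x → 0 ≤ ω x := by
    intro x hx
    obtain ⟨y, rfl⟩ := CStarAlgebra.nonneg_iff_eq_star_mul_self.mp hx
    exact hω y
  exact map_star (PositiveLinearMap.mk₀ ω h) a

end Pool.Agent.Lib.MP_f16f70_an
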