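import Pool.Agent.Lib.MP_f16f70_an.Defs

open scoped ComplexOrder ComplexStarModule

namespace Pool.Agent.Lib.MP_f16f70_an

variable {A : Type*} [CStarAlgebra A]

/-- Riesz extension: a positive real functional on the self-adjoint part, normalised. -/
theorem exists_real_state (A : Type*) [CStarAlgebra A] [Nontrivial A] :
    letI := CStarAlgebra.spectralOrder A
    ∃ g : selfAdjoint A →ₗ[ℝ] ℝ, g 1 = 1 ∧ ∀ x : selfAdjoint A, 0 ≤ (x : A) → 0 ≤ g x := by
  letI := CStarAlgebra.spectralOrder A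
  haveI := CStarAlgebra.spectralOrderedRing A
  let s : PointedCone ℝ (selfAdjoint A) :=
    { carrier := {x | 0 ≤ (x : A)}
      add_mem' := fun {a b} ha hb => by
        have h : (0 : A) ≤ (a : A) + (b : A) := add_nonneg ha hb
        exact h
      zero_mem' := le_refl (0 : A)
      smul_mem' := fun c x hx => by
        have h : (0 : A) ≤ (c : ℝ) • (x : A) := smul_nonneg c.2 hx
        exact h }
  have h1 : (1 : selfAdjoint A) ≠ 0 := by
    intro h
    have := congrArg (fun x : selfAdjoint A => (x : A)) h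
    simp at this
  let f : selfAdjoint A →ₗ.[ℝ] ℝ := LinearPMap.mkSpanSingleton 1 (1 : ℝ) h1
  have hmem : (1 : selfAdjoint A) ∈ f.domain := Submodule.mem_span_singleton_self 1
  have hval : f ⟨1, hmem⟩ = 1 := LinearPMap.mkSpanSingleton_apply ℝ ℝ h1 1
  have hnn : ∀ x : f.domain, (x : selfAdjoint A) ∈ s → 0 ≤ f x := by
    intro x' hxs
    obtain ⟨x, hx⟩ := x'
    obtain ⟨c, rfl⟩ := Submodule.mem_span_singleton.mp hx
    have h3 : f ⟨c • (1 : selfAdjoint A), hx⟩ = c := by
      have : (⟨c • (1 : selfAdjoint A), hx⟩ : f.domain) = c • ⟨1, hmem⟩ := rfl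
      rw [this, f.map_smul, hval, smul_eq_mul, mul_one]
    rw [h3]
    have h4 : 0 ≤ c • (1 : A) := hxs
    by_contra hc
    push Not at hc
    have h5 : (0 : A) ≤ 1 := zero_le_one
    have h6 : (-c) • (1 : A) ≥ 0 := smul_nonneg (by linarith) h5
    have h7 : c • (1 : A) ≤ 0 := by simpa using h6
    have h8 : c • (1 : A) = 0 := le_antisymm h7 h4
    rcases smul_eq_zero.mp h8 with h | h
    · exact hc.ne h
    · exact one_ne_zero h
  have hdense : ∀ y, ∃ x : f.domain, (x : selfAdjoint A) + y ∈ s := by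
    intro y
    refine ⟨⟨‖(y : A)‖ • 1, Submodule.mem_span_singleton.mpr ⟨_, rfl⟩⟩, ?_⟩
    change 0 ≤ ‖(y : A)‖ • (1 : A) + (y : A)
    have := IsSelfAdjoint.neg_algebraMap_norm_le_self (a := (y : A)) y.2
    rw [Algebra.algebraMap_eq_smul_one] at this
    have h9 := add_le_add_left this (‖(y : A)‖ • (1 : A))
    simpa [add_comm] using h9
  obtain ⟨g, hg, hgs⟩ := riesz_extension s f hnn hdense
  refine ⟨g, ?_, fun x hx => hgs x hx⟩
  have h2 := hg ⟨1, hmem⟩
  rw [hval] at h2
  exact h2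

theorem exists_state (A : Type*) [CStarAlgebra A] [Nontrivial A] :
    ∃ φ : A →ₗ[ℂ] ℂ, IsState φ := by
  letI := CStarAlgebra.spectralOrder A
  haveI := CStarAlgebra.spectralOrderedRing A
  obtain ⟨g, hg1, hg⟩ := exists_real_state A
  let fr : A →ₗ[ℝ] ℝ := g ∘ₗ realPart
  let φ : A →ₗ[ℂ] ℂ := Module.Dual.extendRCLike fr
  have hφ : ∀ x : A, φ x = (fr x : ℂ) - Complex.I * (fr (Complex.I • x) : ℂ) := by
    intro x
    have := Module.Dual.extendRCLike_apply (𝕜 := ℂ) fr x
    simpa using this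
  have hsa : ∀ x : A, (hx : IsSelfAdjoint x) → φ x = g ⟨x, hx⟩ := by
    intro x hx
    rw [hφ]
    have h1 : fr x = g ⟨x, hx⟩ := by
      simp only [fr, LinearMap.comp_apply]
      congr 1
      exact Subtype.ext (hx.coe_realPart)
    have h2 : fr (Complex.I • x) = 0 := by
      simp only [fr, LinearMap.comp_apply]
      rw [realPart_I_smul, hx.imaginaryPart]
      simp
    rw [h1, h2]
    simp
  refine ⟨φ, ⟨fun a => ?_, ?_⟩⟩
  · rw [hsa _ (IsSelfAdjoint.star_mul_self a)]
    have := hg ⟨star a * a, IsSelfAdjoint.star_mul_self a⟩ (star_mul_self_nonneg a)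
    exact_mod_cast this
  · rw [hsa 1 (IsSelfAdjoint.one A)]
    rw [show (⟨1, IsSelfAdjoint.one A⟩ : selfAdjoint A) = 1 from rfl, hg1]
    simp

/-- The set of states, as a set of functions. -/
def stateSet (A : Type*) [CStarAlgebra A] : Set (A → ℂ) :=
  {g | ∃ φ : A →ₗ[ℂ] ℂ, IsState φ ∧ ⇑φ = g}

theorem state_bound {φ : A →ₗ[ℂ] ℂ} (hφ : IsState φ) (a : A) : ‖φ a‖ ≤ 2 * ‖a‖ := by
  letI := CStarAlgebra.spectralOrder A
  haveI := CStarAlgebra.spectralOrderedRing A
  have h : ∀ x : A, 0 ≤ x → 0 ≤ φ x := by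
    intro x hx
    obtain ⟨y, rfl⟩ := CStarAlgebra.nonneg_iff_eq_star_mul_self.mp hx
    exact hφ.pos y
  have key : ∀ x : A, IsSelfAdjoint x → ‖φ x‖ ≤ ‖x‖ := by
    intro x hx
    have h1 : φ (star x) = star (φ x) := pos_star φ hφ.pos x
    rw [hx.star_eq] at h1
    have him : (φ x).im = 0 := by
      have := congrArg Complex.im h1
      simp at this
      linarith
    have e1 := h _ (sub_nonneg.mpr hx.le_algebraMap_norm_self)
    have e2 := h _ (sub_nonneg.mpr hx.neg_algebraMap_norm_le_self)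
    rw [Algebra.algebraMap_eq_smul_one] at e1 e2
    have hs : φ (‖x‖ • (1 : A)) = (‖x‖ : ℂ) := by
      have : (‖x‖ • (1 : A)) = ((‖x‖ : ℂ)) • (1 : A) := by
        rw [← Complex.coe_smul]
      rw [this, map_smul, hφ.one]
      simp
    have e1' : 0 ≤ ‖x‖ - (φ x).re := by
      have := (Complex.le_def.mp e1).1
      simpa [hs] using this
    have e2' : 0 ≤ (φ x).re + ‖x‖ := by
      have := (Complex.le_def.mp e2).1
      simpa [hs] using this
    have : φ x = ((φ x).re : ℂ) := Complex.ext (by simp) (by simp [him])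
    rw [this, Complex.norm_real, Real.norm_eq_abs, abs_le]
    constructor <;> linarith
  have hd : a = (realPart a : A) + Complex.I • (imaginaryPart a : A) :=
    (realPart_add_I_smul_imaginaryPart a).symm
  have hr : ‖φ (realPart a : A)‖ ≤ ‖a‖ :=
    (key _ (realPart a).2).trans (realPart.norm_le a)
  have hi : ‖φ (imaginaryPart a : A)‖ ≤ ‖a‖ :=
    (key _ (imaginaryPart a).2).trans (imaginaryPart.norm_le a)
  calc ‖φ a‖ = ‖φ (realPart a : A) + Complex.I * φ (imaginaryPart a : A)‖ := by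
        conv_lhs => rw [hd]
        rw [map_add, map_smul, smul_eq_mul]
    _ ≤ ‖φ (realPart a : A)‖ + ‖Complex.I * φ (imaginaryPart a : A)‖ := norm_add_le _ _
    _ ≤ 2 * ‖a‖ := by
        rw [norm_mul, Complex.norm_I, one_mul]
        linarith

theorem isClosed_stateSet : IsClosed (stateSet A) := by
  have : stateSet A = {g : A → ℂ | (∀ a b, g (a + b) = g a + g b) ∧ (∀ (c : ℂ) a, g (c • a) = c * g a)
      ∧ (∀ a, 0 ≤ (g (star a * a)).re ∧ (g (star a * a)).im = 0) ∧ g 1 = 1} := by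
    ext g
    constructor
    · rintro ⟨φ, hφ, rfl⟩
      refine ⟨fun a b => map_add φ a b, fun c a => by simp, fun a => ?_, hφ.one⟩
      have := Complex.le_def.mp (hφ.pos a)
      exact ⟨by simpa using this.1, by simpa using this.2.symm⟩
    · rintro ⟨h1, h2, h3, h4⟩
      refine ⟨{ toFun := g, map_add' := h1, map_smul' := fun c a => by simp [h2] }, ⟨fun a => ?_, h4⟩,
        rfl⟩
      exact Complex.le_def.mpr ⟨by simpa using (h3 a).1, by simpa using (h3 a).2.symm⟩
  rw [this]
  have c1 : IsClosed {g : A → ℂ | ∀ a b, g (a + b) = g a + g b} := by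
    rw [show {g : A → ℂ | ∀ a b, g (a + b) = g a + g b}
      = ⋂ a, ⋂ b, {g : A → ℂ | g (a + b) = g a + g b} by ext; simp]
    exact isClosed_iInter fun a => isClosed_iInter fun b =>
      isClosed_eq (continuous_apply _)
        ((continuous_apply (A := fun _ : A => ℂ) a).add (continuous_apply (A := fun _ : A => ℂ) b))
  have c2 : IsClosed {g : A → ℂ | ∀ (c : ℂ) a, g (c • a) = c * g a} := by
    rw [show {g : A → ℂ | ∀ (c : ℂ) a, g (c • a) = c * g a}
      = ⋂ c : ℂ, ⋂ a, {g : A → ℂ | g (c • a) = c * g a} by ext; simp]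
    exact isClosed_iInter fun c => isClosed_iInter fun a =>
      isClosed_eq (continuous_apply _) (continuous_const.mul (continuous_apply _))
  have c3 : IsClosed {g : A → ℂ | ∀ a, 0 ≤ (g (star a * a)).re ∧ (g (star a * a)).im = 0} := by
    rw [show {g : A → ℂ | ∀ a, 0 ≤ (g (star a * a)).re ∧ (g (star a * a)).im = 0}
      = ⋂ a, ({g : A → ℂ | 0 ≤ (g (star a * a)).re} ∩ {g : A → ℂ | (g (star a * a)).im = 0}) by
      ext; simp]
    exact isClosed_iInter fun a => IsClosed.inter
      (isClosed_le continuous_const (Complex.continuous_re.comp (continuous_apply _)))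
      (isClosed_eq (Complex.continuous_im.comp (continuous_apply _)) continuous_const)
  have c4 : IsClosed {g : A → ℂ | g 1 = 1} := isClosed_eq (continuous_apply _) continuous_const
  exact c1.inter (c2.inter (c3.inter c4))

theorem isCompact_stateSet : IsCompact (stateSet A) := by
  have hc : IsCompact (Set.pi Set.univ (fun a : A => Metric.closedBall (0 : ℂ) (2 * ‖a‖))) :=
    isCompact_univ_pi fun a => isCompact_closedBall _ _
  refine hc.of_isClosed_subset isClosed_stateSet ?_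
  rintro g ⟨φ, hφ, rfl⟩ a -
  simpa using state_bound hφ a

/-- Every nonzero unital C*-algebra has a pure state. -/
theorem exists_pureState (A : Type*) [CStarAlgebra A] [Nontrivial A] :
    ∃ φ : A →ₗ[ℂ] ℂ, IsPureState φ := by
  obtain ⟨φ₀, hφ₀⟩ := exists_state A
  obtain ⟨g, hg⟩ := (isCompact_stateSet (A := A)).extremePoints_nonempty ⟨_, φ₀, hφ₀, rfl⟩
  obtain ⟨⟨φ, hφ, rfl⟩, hext⟩ := hg
  refine ⟨φ, { hφ with pure := fun ω hω hle => ?_ }⟩
  -- the value at one
  have h0 : 0 ≤ ω 1 := by simpa using hω 1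
  have h1 : ω 1 ≤ 1 := by simpa [hφ.one] using hle 1
  obtain ⟨t, ht⟩ : ∃ t : ℝ, ω 1 = (t : ℂ) :=
    ⟨(ω 1).re, Complex.ext (by simp) (by simpa using (Complex.le_def.mp h0).2.symm)⟩
  have ht0 : 0 ≤ t := by
    have := (Complex.le_def.mp h0).1
    simpa [ht] using this
  have ht1 : t ≤ 1 := by
    have := (Complex.le_def.mp h1).1
    simpa [ht] using this
  -- positive functionals vanishing at one vanish
  have vanish : ∀ χ : A →ₗ[ℂ] ℂ, (∀ a, 0 ≤ χ (star a * a)) → χ 1 = 0 → ∀ a, χ a = 0 := by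
    intro χ hχ hχ1
    letI := CStarAlgebra.spectralOrder A
    haveI := CStarAlgebra.spectralOrderedRing A
    have h : ∀ x : A, 0 ≤ x → 0 ≤ χ x := by
      intro x hx
      obtain ⟨y, rfl⟩ := CStarAlgebra.nonneg_iff_eq_star_mul_self.mp hx
      exact hχ y
    have key : ∀ x : A, IsSelfAdjoint x → χ x = 0 := by
      intro x hx
      have e1 := h _ (sub_nonneg.mpr hx.le_algebraMap_norm_self)
      have e2 := h _ (sub_nonneg.mpr hx.neg_algebraMap_norm_le_self)
      rw [Algebra.algebraMap_eq_smul_one] at e1 e2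
      have hs : χ (‖x‖ • (1 : A)) = 0 := by
        have : (‖x‖ • (1 : A)) = ((‖x‖ : ℂ)) • (1 : A) := by
          rw [← Complex.coe_smul]
        rw [this, map_smul, hχ1]
        simp
      rw [map_sub, hs, zero_sub] at e1
      rw [map_sub, map_neg, hs, neg_zero, sub_zero] at e2
      exact le_antisymm (by simpa using e1) e2
    intro a
    rw [← realPart_add_I_smul_imaginaryPart a, map_add, map_smul, key _ (realPart a).2,
      key _ (imaginaryPart a).2]
    simp
  rcases ht0.eq_or_lt with h | htpos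
  · refine ⟨0, fun a => ?_⟩
    rw [zero_mul]
    exact vanish ω hω (by rw [ht, ← h]; simp) a
  rcases ht1.eq_or_lt with h | htlt
  · refine ⟨1, fun a => ?_⟩
    have := vanish (φ - ω) (fun a => by simpa using hle a) (by simp [ht, h, hφ.one]) a
    rw [one_mul]
    have h3 : φ a - ω a = 0 := this
    exact (sub_eq_zero.mp h3).symm
  · -- a proper convex combination
    have hne : (t : ℂ) ≠ 0 := by exact_mod_cast htpos.ne'
    have hne' : ((1 - t : ℝ) : ℂ) ≠ 0 := by
      have : (1 - t) ≠ 0 := by linarith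
      exact_mod_cast this
    have hpos1 : (0 : ℂ) ≤ ((t⁻¹ : ℝ) : ℂ) := by
      have := inv_nonneg.mpr ht0
      exact_mod_cast this
    have hpos2 : (0 : ℂ) ≤ (((1 - t)⁻¹ : ℝ) : ℂ) := by
      have : 0 ≤ (1 - t)⁻¹ := inv_nonneg.mpr (by linarith)
      exact_mod_cast this
    let φ₁ : A →ₗ[ℂ] ℂ := ((t⁻¹ : ℝ) : ℂ) • ω
    let φ₂ : A →ₗ[ℂ] ℂ := (((1 - t)⁻¹ : ℝ) : ℂ) • (φ - ω)
    have hs1 : IsState φ₁ := ⟨fun a => mul_nonneg hpos1 (hω a), by
      simp [φ₁, ht, hne]⟩
    have hs2 : IsState φ₂ := ⟨fun a => mul_nonneg hpos2 (by simpa using hle a), by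
      simp only [φ₂, LinearMap.smul_apply, LinearMap.sub_apply, hφ.one, ht, smul_eq_mul]
      have : (1 : ℂ) - t = ((1 - t : ℝ) : ℂ) := by push_cast; ring
      rw [this]
      push_cast
      rw [inv_mul_cancel₀]
      simpa using hne'⟩
    have hseg : (⇑φ : A → ℂ) ∈ openSegment ℝ (⇑φ₁ : A → ℂ) ⇑φ₂ := by
      refine ⟨t, 1 - t, htpos, by linarith, by ring, ?_⟩
      funext a
      simp only [Pi.add_apply, Pi.smul_apply, φ₁, φ₂, LinearMap.smul_apply, LinearMap.sub_apply,
        smul_eq_mul, Complex.real_smul]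
      have e1 : (t : ℂ) * (((t⁻¹ : ℝ) : ℂ) * ω a) = ω a := by
        push_cast
        rw [← mul_assoc, mul_inv_cancel₀ hne, one_mul]
      have e2 : ((1 - t : ℝ) : ℂ) * ((((1 - t)⁻¹ : ℝ) : ℂ) * (φ a - ω a)) = φ a - ω a := by
        rw [Complex.ofReal_inv, ← mul_assoc, mul_inv_cancel₀ hne', one_mul]
      rw [e1, e2]
      ring
    have := hext ⟨φ₁, hs1, rfl⟩ ⟨φ₂, hs2, rfl⟩ hseg
    refine ⟨t, fun a => ?_⟩
    have h2 := congrFun this a
    rw [← h2]
    simp only [φ₁, LinearMap.smul_apply, smul_eq_mul]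
    push_cast
    rw [← mul_assoc, mul_inv_cancel₀ hne, one_mul]

end Pool.Agent.Lib.MP_f16f70_an
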