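import Pool.Agent.Lib.MP_f16f70_an.Pure

open scoped ComplexOrder ComplexConjugate

namespace Pool.Agent.Lib.MP_f16f70_an

variable {A : Type*} [CStarAlgebra A] {I : Type*}

theorem IsWord.star {Φ : A →ₗ[ℂ] ℂ} (hΦ : IsState Φ) {S : I → StarSubalgebra ℂ A}
    {l : List (I × A)} (h : IsWord Φ S l) : IsWord Φ S (starWord l) := by
  refine ⟨?_, ?_⟩
  · rw [starWord, List.isChain_reverse, List.isChain_map]
    exact h.1.imp (fun a b hab => fun e => hab e.symm)
  · intro x hx
    simp only [starWord, List.mem_reverse, List.mem_map] at hx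
    obtain ⟨y, hy, rfl⟩ := hx
    obtain ⟨h1, h2⟩ := h.2 y hy
    refine ⟨star_mem h1, ?_⟩
    simp only
    rw [pos_star Φ hΦ.pos, h2, star_zero]

theorem mul_word_zero {Φ : A →ₗ[ℂ] ℂ} (hΦ : IsState Φ) {S : I → StarSubalgebra ℂ A}
    (hfree : IsFreeFamily Φ (fun i => (S i : Set A))) {i : I} {K : A} (hK : K ∈ S i)
    {l : List (I × A)} (h : IsWord Φ S l) (hne : l ≠ []) (hl : ∀ b, l ≠ [(i, b)]) :
    Φ (K * wprod l) = 0 := by
  by_cases hj : ∀ y ∈ l.head?, i ≠ y.1
  · exact lemmaA hΦ hfree h hne hK hj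
  · cases l with
    | nil => exact absurd rfl hne
    | cons x m =>
      obtain ⟨j, b⟩ := x
      have hx : i = j := by
        by_contra hne
        exact hj (by simpa using hne)
      subst hx
      have hm0 : m ≠ [] := by
        rintro rfl
        exact hl b rfl
      have h2 : K * wprod ((i, b) :: m) =
          wprod ((i, cen Φ (K * b)) :: m) + (Φ (K * b)) • wprod m := by
        simp only [wprod_cons]
        rw [← mul_assoc]
        conv_lhs => rw [eq_cen_add Φ (K * b)]
        simp [add_mul, Algebra.algebraMap_eq_smul_one]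
      have hm : K * b ∈ S i := mul_mem hK (h.2 (i, b) (by simp)).1
      rw [h2, map_add, map_smul, apply_wprod_eq_zero hfree h.tail hm0,
        apply_wprod_eq_zero hfree (h.tail.cons (cen_mem hm) (apply_cen hΦ.one _) h.head) (by simp)]
      simp

theorem word_mul_zero {Φ : A →ₗ[ℂ] ℂ} (hΦ : IsState Φ) {S : I → StarSubalgebra ℂ A}
    (hfree : IsFreeFamily Φ (fun i => (S i : Set A))) {i : I} {K : A} (hK : K ∈ S i)
    {l : List (I × A)} (h : IsWord Φ S l) (hne : l ≠ []) (hl : ∀ b, l ≠ [(i, b)]) :
    Φ (wprod l * K) = 0 := by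
  have h1 := mul_word_zero hΦ hfree (K := star K) (star_mem hK) (h.star hΦ)
    (by simpa [starWord] using hne)
    (by
      intro b hb
      have : starWord (starWord l) = [(i, star b)] := by rw [hb]; simp [starWord]
      have h2 : starWord (starWord l) = l := by
        simp [starWord, Function.comp_def]
      exact hl _ (h2 ▸ this))
  rw [wprod_starWord, ← star_mul, pos_star Φ hΦ.pos] at h1
  simpa using h1

/-- A commutative free factor lies in the centralizer of the free product state. -/
theorem centralizer_of_comm {Φ : A →ₗ[ℂ] ℂ} (hΦ : IsState Φ) {S : I → StarSubalgebra ℂ A}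
    (hfree : IsFreeFamily Φ (fun i => (S i : Set A)))
    (hgen : (StarAlgebra.adjoin ℂ (⋃ i, (S i : Set A))).topologicalClosure = ⊤) {i : I}
    (hcomm : ∀ a ∈ S i, ∀ b ∈ S i, a * b = b * a) {K : A} (hK : K ∈ S i) (x : A) :
    Φ (K * x) = Φ (x * K) := by
  have hc := continuous_of_pos Φ hΦ.pos
  refine ext_of_words (Φ := Φ) hΦ.one S hgen (ω₁ := Φ.comp (LinearMap.mulLeft ℂ K))
    (ω₂ := Φ.comp (LinearMap.mulRight ℂ K)) ?_ ?_ ?_ x
  · exact hc.comp (continuous_const.mul continuous_id)
  · exact hc.comp (continuous_id.mul continuous_const)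
  · intro l hl
    simp only [LinearMap.comp_apply, LinearMap.mulLeft_apply, LinearMap.mulRight_apply]
    by_cases hne : l = []
    · subst hne; simp
    · by_cases hlb : ∀ b, l ≠ [(i, b)]
      · rw [mul_word_zero hΦ hfree hK hl hne hlb, word_mul_zero hΦ hfree hK hl hne hlb]
      · push Not at hlb
        obtain ⟨b, rfl⟩ := hlb
        have hb := (hl.2 (i, b) (by simp)).1
        simp only [wprod_cons, wprod_nil, mul_one]
        rw [hcomm K hK b hb]

/-- `t ↦ √t` -/
noncomputable def kfun : C(unitInterval, ℂ) := ⟨fun t => ((Real.sqrt t : ℝ) : ℂ), by fun_prop⟩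

/-- `t ↦ √(1-t)` -/
noncomputable def lfun : C(unitInterval, ℂ) := ⟨fun t => ((Real.sqrt (1 - t) : ℝ) : ℂ), by fun_prop⟩

/-- `t ↦ t` -/
noncomputable def tfun : C(unitInterval, ℂ) := ⟨fun t => ((t : ℝ) : ℂ), by fun_prop⟩

theorem kfun_mul : kfun * kfun = tfun := by
  ext t
  simp only [kfun, tfun, ContinuousMap.mul_apply, ContinuousMap.coe_mk]
  rw [← Complex.ofReal_mul, Real.mul_self_sqrt t.2.1]

theorem lfun_mul : lfun * lfun = 1 - tfun := by
  ext t
  simp only [lfun, tfun, ContinuousMap.mul_apply, ContinuousMap.coe_mk, ContinuousMap.sub_apply,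
    ContinuousMap.one_apply]
  rw [← Complex.ofReal_mul, Real.mul_self_sqrt (by linarith [t.2.2])]
  simp

theorem star_kfun : star kfun = kfun := by
  ext t
  simp [kfun]

theorem star_lfun : star lfun = lfun := by
  ext t
  simp [lfun]

theorem integral_tfun : ∫ t : unitInterval, tfun t = 1 / 2 := by
  have h : ∫ t : unitInterval, tfun t = ∫ t in Set.Icc (0:ℝ) 1, (t : ℂ) := by
    have := MeasureTheory.integral_subtype (s := Set.Icc (0:ℝ) 1) measurableSet_Icc
      (fun t : ℝ => (t : ℂ))
    exact this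
  rw [h, MeasureTheory.integral_Icc_eq_integral_Ioc, ← intervalIntegral.integral_of_le (by norm_num)]
  rw [intervalIntegral.integral_ofReal]
  simp

theorem integral_tfun_mul : ∫ t : unitInterval, (tfun * tfun) t = 1 / 3 := by
  have h : ∫ t : unitInterval, (tfun * tfun) t = ∫ t in Set.Icc (0:ℝ) 1, ((t ^ 2 : ℝ) : ℂ) := by
    have := MeasureTheory.integral_subtype (s := Set.Icc (0:ℝ) 1) measurableSet_Icc
      (fun t : ℝ => ((t ^ 2 : ℝ) : ℂ))
    rw [← this]
    apply MeasureTheory.integral_congr_ae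
    filter_upwards with t
    simp [tfun, pow_two]
  rw [h, MeasureTheory.integral_Icc_eq_integral_Ioc, ← intervalIntegral.integral_of_le (by norm_num)]
  rw [intervalIntegral.integral_ofReal]
  simp
  norm_num

/-- A reduced free product with `(C([0,1]), Lebesgue)` as a free factor has a non-pure state. -/
theorem not_pure {Φ : A →ₗ[ℂ] ℂ} {B : I → Set A} (hP : IsReducedFreeProduct Φ B)
    (S : I → StarSubalgebra ℂ A) (hS : ∀ i, (S i : Set A) = B i)
    (i : I) (j : C(unitInterval, ℂ) →⋆ₐ[ℂ] A) (hj : B i = Set.range j)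
    (hint : ∀ f, Φ (j f) = ∫ t, f t) : ¬ IsPureState Φ := by
  intro hpure
  have hΦ := hP.state
  have hBS : B = fun i => (S i : Set A) := by funext i; exact (hS i).symm
  have hfree : IsFreeFamily Φ (fun i => (S i : Set A)) := hBS ▸ hP.free
  have hgen : (StarAlgebra.adjoin ℂ (⋃ i, (S i : Set A))).topologicalClosure = ⊤ := by
    have h0 := hP.generates
    rw [hBS] at h0
    exact h0
  have hmem : ∀ f, j f ∈ S i := by
    intro f
    have : j f ∈ (S i : Set A) := by rw [hS, hj]; exact ⟨f, rfl⟩
    exact this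
  have hcomm : ∀ a ∈ S i, ∀ b ∈ S i, a * b = b * a := by
    intro a ha b hb
    have ha' : a ∈ (S i : Set A) := ha
    have hb' : b ∈ (S i : Set A) := hb
    rw [hS, hj] at ha' hb'
    obtain ⟨f, rfl⟩ := ha'
    obtain ⟨g, rfl⟩ := hb'
    rw [← map_mul, ← map_mul, mul_comm]
  have hcen : ∀ f x, Φ (j f * x) = Φ (x * j f) := fun f x =>
    centralizer_of_comm hΦ hfree hgen hcomm (hmem f) x
  -- the positive functional `x ↦ Φ (x g²)` for real `g`
  have hposf : ∀ g : C(unitInterval, ℂ), star g = g → ∀ a, 0 ≤ Φ (star a * a * j (g * g)) := by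
    intro g hg a
    have h1 : Φ (star a * a * j (g * g)) = Φ (star (a * j g) * (a * j g)) := by
      rw [map_mul j, ← mul_assoc, ← hcen g]
      rw [star_mul, ← map_star, hg]
      simp only [mul_assoc]
    rw [h1]
    exact hΦ.pos _
  obtain ⟨t, ht⟩ := hpure.pure (Φ.comp (LinearMap.mulRight ℂ (j tfun)))
    (fun a => by
      simp only [LinearMap.comp_apply, LinearMap.mulRight_apply]
      rw [← kfun_mul]
      exact hposf kfun star_kfun a)
    (fun a => by
      simp only [LinearMap.comp_apply, LinearMap.mulRight_apply]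
      have := hposf lfun star_lfun a
      rw [lfun_mul, map_sub, map_one, mul_sub, mul_one, map_sub, sub_nonneg] at this
      exact this)
  have e1 := ht 1
  have e2 := ht (j tfun)
  simp only [LinearMap.comp_apply, LinearMap.mulRight_apply, one_mul] at e1 e2
  rw [hint, integral_tfun, hΦ.one, mul_one] at e1
  rw [← map_mul, hint, hint, integral_tfun, integral_tfun_mul, ← e1] at e2
  norm_num at e2

/-- Purity is preserved by state preserving isomorphisms. -/
theorem pure_of_iso {B : Type*} [CStarAlgebra B] {φ : A →ₗ[ℂ] ℂ} {ψ : B →ₗ[ℂ] ℂ}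
    (hφ : IsPureState φ) (θ : B ≃⋆ₐ[ℂ] A) (hθ : ∀ x, φ (θ x) = ψ x) : IsPureState ψ := by
  refine ⟨⟨fun a => ?_, ?_⟩, ?_⟩
  · rw [← hθ, map_mul, map_star]; exact hφ.pos _
  · rw [← hθ, map_one]; exact hφ.one
  · intro ω hω hle
    obtain ⟨t, ht⟩ := hφ.pure (ω.comp
        ({ toFun := fun a => θ.symm a
           map_add' := fun a b => map_add θ.symm a b
           map_smul' := fun c a => map_smul θ.symm c a } : A →ₗ[ℂ] B))
      (fun a => by
        have := hω (θ.symm a)
        rw [← map_star, ← map_mul] at this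
        exact this)
      (fun a => by
        have := hle (θ.symm a)
        rw [← map_star, ← map_mul, ← hθ (θ.symm (star a * a)), StarAlgEquiv.apply_symm_apply] at this
        exact this)
    refine ⟨t, fun a => ?_⟩
    have := ht (θ a)
    rw [hθ] at this
    simpa using this

end Pool.Agent.Lib.MP_f16f70_an
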