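import Pool.Agent.Lib.MP_f16f70_an.Words

open scoped ComplexOrder ComplexConjugate

namespace Pool.Agent.Lib.MP_f16f70_an

variable {A : Type*} [CStarAlgebra A] {I : Type*}

theorem pure_scaled {φ : A →ₗ[ℂ] ℂ} (h : IsPureState φ) {ω : A →ₗ[ℂ] ℂ}
    (hpos : ∀ a, 0 ≤ ω (star a * a)) {r : ℝ} (hr : 0 < r)
    (hle : ∀ a, ω (star a * a) ≤ (r : ℂ) * φ (star a * a)) : ∃ t : ℂ, ∀ a, ω a = t * φ a := by
  have hr' : (0 : ℂ) < (r : ℂ) := by exact_mod_cast hr
  have hri : (0 : ℂ) ≤ ((r⁻¹ : ℝ) : ℂ) := by exact_mod_cast (inv_pos.mpr hr).le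
  obtain ⟨t, ht⟩ := h.pure (((r⁻¹ : ℝ) : ℂ) • ω)
    (fun a => by
      simp only [LinearMap.smul_apply, smul_eq_mul]
      exact mul_nonneg hri (hpos a))
    (fun a => by
      simp only [LinearMap.smul_apply, smul_eq_mul]
      have := mul_le_mul_of_nonneg_left (hle a) hri
      rw [← mul_assoc, Complex.ofReal_inv, inv_mul_cancel₀ hr'.ne', one_mul] at this
      simpa using this)
  refine ⟨r * t, fun a => ?_⟩
  have := ht a
  simp only [LinearMap.smul_apply, smul_eq_mul, Complex.ofReal_inv] at this
  rw [mul_assoc, ← this, ← mul_assoc, mul_inv_cancel₀ hr'.ne', one_mul]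

/-- the adjoint word -/
noncomputable def starWord (l : List (I × A)) : List (I × A) := (l.map (fun x => (x.1, star x.2))).reverse

theorem wprod_starWord (l : List (I × A)) : wprod (starWord l) = star (wprod l) := by
  induction l with
  | nil => simp [starWord]
  | cons x l ih =>
    have h : starWord (x :: l) = starWord l ++ [(x.1, star x.2)] := by
      simp [starWord]
    rw [h, wprod_append, ih]
    simp

theorem apply_wprod_eq_zero {Φ : A →ₗ[ℂ] ℂ} {S : I → StarSubalgebra ℂ A}
    (hfree : IsFreeFamily Φ (fun i => (S i : Set A))) {l : List (I × A)} (h : IsWord Φ S l)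
    (hl : l ≠ []) : Φ (wprod l) = 0 :=
  hfree l hl h.1 h.2

theorem isWord_sandwich {Φ : A →ₗ[ℂ] ℂ} (hΦ : IsState Φ) {S : I → StarSubalgebra ℂ A}
    {l : List (I × A)} (h : IsWord Φ S l) {j : I} {c : A} (hc : c ∈ S j) (hc0 : Φ c = 0)
    (hj : ∀ y ∈ l.head?, j ≠ y.1) : IsWord Φ S (starWord l ++ (j, c) :: l) := by
  refine ⟨?_, ?_⟩
  · rw [List.isChain_append]
    refine ⟨?_, (h.cons hc hc0 hj).1, ?_⟩
    · rw [starWord, List.isChain_reverse, List.isChain_map]
      exact h.1.imp (fun a b hab => fun e => hab e.symm)
    · intro x hx y hy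
      simp only [starWord, List.getLast?_reverse, List.head?_map] at hx
      simp only [List.head?_cons, Option.mem_def, Option.some.injEq] at hy
      subst hy
      simp only [Option.mem_def, Option.map_eq_some_iff] at hx
      obtain ⟨y, hy, rfl⟩ := hx
      exact fun e => hj y hy e.symm
  · intro x hx
    rcases List.mem_append.mp hx with hx | hx
    · simp only [starWord, List.mem_reverse, List.mem_map] at hx
      obtain ⟨y, hy, rfl⟩ := hx
      obtain ⟨h1, h2⟩ := h.2 y hy
      refine ⟨star_mem h1, ?_⟩
      simp only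
      rw [pos_star Φ hΦ.pos, h2, star_zero]
    · exact (h.cons hc hc0 hj).2 x hx

section expand

variable {Φ : A →ₗ[ℂ] ℂ} (hΦ : IsState Φ) {S : I → StarSubalgebra ℂ A}
    (hfree : IsFreeFamily Φ (fun i => (S i : Set A))) {l : List (I × A)} (h : IsWord Φ S l)
    (hl : l ≠ []) {j : I} {c : A} (hc : c ∈ S j) (hj : ∀ y ∈ l.head?, j ≠ y.1)

include hΦ hfree h hl hc hj

theorem lemmaA : Φ (c * wprod l) = 0 := by
  have h2 : c * wprod l = wprod ((j, cen Φ c) :: l) + (Φ c) • wprod l := by
    conv_lhs => rw [eq_cen_add Φ c]
    simp [add_mul, Algebra.algebraMap_eq_smul_one]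
  rw [h2, map_add, map_smul, apply_wprod_eq_zero hfree h hl,
    apply_wprod_eq_zero hfree (h.cons (cen_mem hc) (apply_cen hΦ.one c) hj) (by simp)]
  simp

theorem lemmaB : Φ (star (wprod l) * c) = 0 := by
  have := lemmaA hΦ hfree h hl (c := star c) (star_mem hc) hj
  have h3 := pos_star Φ hΦ.pos (star c * wprod l)
  rw [this] at h3
  simpa using h3

omit hl in
theorem lemmaC : Φ (star (wprod l) * c * wprod l) = Φ c * Φ (star (wprod l) * wprod l) := by
  have h2 : star (wprod l) * c * wprod l = wprod (starWord l ++ (j, cen Φ c) :: l) +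
      (Φ c) • (star (wprod l) * wprod l) := by
    conv_lhs => rw [eq_cen_add Φ c]
    rw [wprod_append, wprod_starWord, wprod_cons]
    simp [add_mul, mul_add, Algebra.algebraMap_eq_smul_one, mul_assoc]
  rw [h2, map_add, map_smul,
    apply_wprod_eq_zero hfree (isWord_sandwich hΦ h (cen_mem hc) (apply_cen hΦ.one c) hj) (by simp)]
  simp

theorem expandPhi (z : ℂ) :
    Φ (star (1 + z • wprod l) * c * (1 + z • wprod l)) =
      ((1 + ‖z‖ ^ 2 * (Φ (star (wprod l) * wprod l)).re : ℝ) : ℂ) * Φ c := by
  have h2 : star (1 + z • wprod l) * c * (1 + z • wprod l) =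
      c + z • (c * wprod l) + (conj z) • (star (wprod l) * c) +
        (conj z * z) • (star (wprod l) * c * wprod l) := by
    simp only [star_add, star_one, star_smul, add_mul, mul_add, one_mul, mul_one, smul_mul_assoc,
      mul_smul_comm, smul_smul, smul_add]
    rw [RCLike.star_def]
    rw [mul_comm z (conj z)]
    abel
  have h3 : Φ (star (wprod l) * wprod l) = ((Φ (star (wprod l) * wprod l)).re : ℂ) := by
    have := hΦ.pos (wprod l)
    rw [Complex.nonneg_iff] at this
    apply Complex.ext
    · simp
    · simpa using this.2.symm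
  rw [h2, map_add, map_add, map_add, map_smul, map_smul, map_smul, lemmaA hΦ hfree h hl hc hj,
    lemmaB hΦ hfree h hl hc hj, lemmaC hΦ hfree h hc hj]
  rw [h3]
  have h4 : conj z * z = ((‖z‖ ^ 2 : ℝ) : ℂ) := by
    rw [mul_comm, Complex.mul_conj, Complex.normSq_eq_norm_sq]
  rw [h4]
  push_cast
  simp only [smul_eq_mul, Complex.ofReal_re]
  ring

end expand

/-- The reduced free product state of a family of pure states is pure. -/
theorem pure_of_free {C : I → Type*} [∀ i, CStarAlgebra (C i)] {σ : ∀ i, C i →ₗ[ℂ] ℂ}
    (hσ : ∀ i, IsPureState (σ i)) {Φ : A →ₗ[ℂ] ℂ} (ι : ∀ i, C i →⋆ₐ[ℂ] A)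
    (hι : ∀ i c, Φ (ι i c) = σ i c)
    (hP : IsReducedFreeProduct Φ (fun i => Set.range (ι i))) : IsPureState Φ := by
  classical
  have hΦ := hP.state
  set S : I → StarSubalgebra ℂ A := fun i => (ι i).range with hS
  have hSr : (fun i => (S i : Set A)) = fun i => Set.range (ι i) := by
    funext i
    rfl
  have hfree : IsFreeFamily Φ (fun i => (S i : Set A)) := by
    rw [hSr]; exact hP.free
  have hgen : (StarAlgebra.adjoin ℂ (⋃ i, (S i : Set A))).topologicalClosure = ⊤ := by
    have h0 := hP.generates
    have h1 : (⋃ i, (S i : Set A)) = ⋃ i, Set.range (ι i) := by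
      exact Set.iUnion_congr (fun i => congrFun hSr i)
    rw [h1]; exact h0
  refine { hΦ with pure := ?_ }
  intro Ψ hpos hle
  -- Ψ kills all non-empty words
  have key : ∀ l, IsWord Φ S l → l ≠ [] → Ψ (wprod l) = 0 := by
    intro l hl hne
    cases l with
    | nil => exact absurd rfl hne
    | cons x m =>
      obtain ⟨j, b⟩ := x
      have hb := hl.2 (j, b) (by simp)
      obtain ⟨hb1, hb0⟩ := hb
      simp only at hb1 hb0
      obtain ⟨c, rfl⟩ : ∃ c, ι j c = b := hb1
      have hc0 : σ j c = 0 := by rw [← hι]; exact hb0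
      have hm := hl.tail
      have hj := hl.head
      simp only at hj
      by_cases hm0 : m = []
      · subst hm0
        obtain ⟨t, ht⟩ := (hσ j).pure (Ψ.comp (ι j).toLinearMap)
          (fun a => by
            have := hpos (ι j a)
            rw [← map_star, ← map_mul] at this
            exact this)
          (fun a => by
            have := hle (ι j a)
            rw [← map_star, ← map_mul, hι] at this
            exact this)
        have := ht c
        rw [hc0, mul_zero] at this
        simpa using this
      · set w := wprod m with hw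
        have hz : ∀ z : ℂ, Ψ (star (1 + z • w) * ι j c * (1 + z • w)) = 0 := by
          intro z
          let ω : C j →ₗ[ℂ] ℂ := Ψ.comp
            ((LinearMap.mulRight ℂ (1 + z • w)).comp
              ((LinearMap.mulLeft ℂ (star (1 + z • w))).comp (ι j).toLinearMap))
          have hω : ∀ a, ω a = Ψ (star (1 + z • w) * ι j a * (1 + z • w)) := fun a => rfl
          have hss : ∀ a : C j, star (1 + z • w) * ι j (star a * a) * (1 + z • w) =
              star (ι j a * (1 + z • w)) * (ι j a * (1 + z • w)) := by
            intro a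
            rw [map_mul, map_star, star_mul]
            simp only [mul_assoc]
          have hnn : 0 ≤ (Φ (star w * w)).re := (Complex.nonneg_iff.mp (hΦ.pos w)).1
          obtain ⟨t, ht⟩ := pure_scaled (hσ j) (ω := ω)
            (r := 1 + ‖z‖ ^ 2 * (Φ (star w * w)).re)
            (fun a => by rw [hω, hss]; exact hpos _)
            (by positivity)
            (fun a => by
              rw [hω, hss]
              refine (hle _).trans (le_of_eq ?_)
              rw [← hss, ← hι, hw]
              exact expandPhi hΦ hfree hm hm0 (c := ι j (star a * a)) ⟨star a * a, rfl⟩ hj z)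
          have := ht c
          rw [hω, hc0, mul_zero] at this
          exact this
        have hexp : ∀ z : ℂ, Ψ (star (1 + z • w) * ι j c * (1 + z • w)) =
            Ψ (ι j c) + z * Ψ (ι j c * w) + conj z * Ψ (star w * ι j c) +
              (conj z * z) * Ψ (star w * ι j c * w) := by
          intro z
          have h2 : star (1 + z • w) * ι j c * (1 + z • w) =
              ι j c + z • (ι j c * w) + (conj z) • (star w * ι j c) +
                (conj z * z) • (star w * ι j c * w) := by
            simp only [star_add, star_one, star_smul, add_mul, mul_add, one_mul, mul_one,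
              smul_mul_assoc, mul_smul_comm, smul_smul, smul_add]
            rw [RCLike.star_def]
            rw [mul_comm z (conj z)]
            abel
          rw [h2]
          simp only [map_add, map_smul, smul_eq_mul]
        have e1 := hz 1
        have e2 := hz (-1)
        have e3 := hz Complex.I
        have e4 := hz (-Complex.I)
        rw [hexp] at e1 e2 e3 e4
        simp only [map_one, map_neg, Complex.conj_I] at e1 e2 e3 e4
        have hI : Complex.I * Complex.I = -1 := Complex.I_mul_I
        have hp : Ψ (ι j c * w) + Ψ (star w * ι j c) = 0 := by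
          linear_combination (1/2) * e1 - (1/2) * e2
        have hq : Complex.I * (Ψ (ι j c * w) - Ψ (star w * ι j c)) = 0 := by
          linear_combination (1/2) * e3 - (1/2) * e4
        have hq' : Ψ (ι j c * w) - Ψ (star w * ι j c) = 0 := by
          rcases mul_eq_zero.mp hq with h | h
          · exact absurd h Complex.I_ne_zero
          · exact h
        have : Ψ (ι j c * w) = 0 := by linear_combination (1/2) * hp + (1/2) * hq'
        simpa [hw] using this
  refine ⟨Ψ 1, fun a => ?_⟩
  have := ext_of_words (Φ := Φ) hΦ.one S hgen (ω₁ := Ψ) (ω₂ := (Ψ 1) • Φ)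
    (continuous_of_pos Ψ hpos)
    (by
      have := continuous_of_pos Φ hΦ.pos
      exact (this.const_smul (Ψ 1)))
    (fun l hl => by
      by_cases hne : l = []
      · subst hne; simp [hΦ.one]
      · rw [key l hl hne]
        simp [apply_wprod_eq_zero hfree hl hne]) a
  simpa using this

end Pool.Agent.Lib.MP_f16f70_an
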