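import Pool.Agent.Lib.MP_f16f70_an.Defs

open scoped ComplexOrder

namespace Pool.Agent.Lib.MP_f16f70_an

variable {A : Type*} [CStarAlgebra A] {I : Type*}

/-- reduced centred words -/
def IsWord (Φ : A →ₗ[ℂ] ℂ) (S : I → StarSubalgebra ℂ A) (l : List (I × A)) : Prop :=
  l.IsChain (fun x y => x.1 ≠ y.1) ∧ ∀ x ∈ l, x.2 ∈ S x.1 ∧ Φ x.2 = 0

/-- product of a word -/
def wprod (l : List (I × A)) : A := (l.map Prod.snd).prod

@[simp] theorem wprod_nil : wprod ([] : List (I × A)) = 1 := by simp [wprod]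

@[simp] theorem wprod_cons (x : I × A) (l : List (I × A)) : wprod (x :: l) = x.2 * wprod l := by
  simp [wprod]

theorem wprod_append (l m : List (I × A)) : wprod (l ++ m) = wprod l * wprod m := by
  simp [wprod]

/-- centred part -/
noncomputable def cen (Φ : A →ₗ[ℂ] ℂ) (c : A) : A := c - algebraMap ℂ A (Φ c)

theorem cen_mem {Φ : A →ₗ[ℂ] ℂ} {S : StarSubalgebra ℂ A} {c : A} (hc : c ∈ S) :
    cen Φ c ∈ S := sub_mem hc (S.algebraMap_mem _)

theorem apply_cen {Φ : A →ₗ[ℂ] ℂ} (h1 : Φ 1 = 1) (c : A) : Φ (cen Φ c) = 0 := by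
  simp [cen, Algebra.algebraMap_eq_smul_one, h1]

theorem eq_cen_add (Φ : A →ₗ[ℂ] ℂ) (c : A) : c = cen Φ c + algebraMap ℂ A (Φ c) := by
  simp [cen]

/-- the span of the words -/
noncomputable def wspan (Φ : A →ₗ[ℂ] ℂ) (S : I → StarSubalgebra ℂ A) : Submodule ℂ A :=
  Submodule.span ℂ {x | ∃ l, IsWord Φ S l ∧ wprod l = x}

theorem wprod_mem_wspan {Φ : A →ₗ[ℂ] ℂ} {S : I → StarSubalgebra ℂ A} {l : List (I × A)}
    (h : IsWord Φ S l) : wprod l ∈ wspan Φ S := Submodule.subset_span ⟨l, h, rfl⟩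

theorem IsWord.tail {Φ : A →ₗ[ℂ] ℂ} {S : I → StarSubalgebra ℂ A} {x : I × A} {l : List (I × A)}
    (h : IsWord Φ S (x :: l)) : IsWord Φ S l := by
  refine ⟨?_, fun y hy => h.2 y (List.mem_cons_of_mem _ hy)⟩
  exact (List.isChain_cons.mp h.1).2

theorem IsWord.cons {Φ : A →ₗ[ℂ] ℂ} {S : I → StarSubalgebra ℂ A} {j : I} {c : A}
    {l : List (I × A)} (h : IsWord Φ S l) (hc : c ∈ S j) (hc0 : Φ c = 0)
    (hj : ∀ y ∈ l.head?, j ≠ y.1) : IsWord Φ S ((j, c) :: l) := by
  refine ⟨List.isChain_cons.mpr ⟨hj, h.1⟩, ?_⟩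
  intro x hx
  rcases List.mem_cons.mp hx with rfl | hx
  · exact ⟨hc, hc0⟩
  · exact h.2 x hx

theorem IsWord.head {Φ : A →ₗ[ℂ] ℂ} {S : I → StarSubalgebra ℂ A} {x : I × A} {l : List (I × A)}
    (h : IsWord Φ S (x :: l)) : ∀ y ∈ l.head?, x.1 ≠ y.1 := (List.isChain_cons.mp h.1).1

theorem mul_wprod_mem {Φ : A →ₗ[ℂ] ℂ} (h1 : Φ 1 = 1) {S : I → StarSubalgebra ℂ A} {j : I} {c : A}
    (hc : c ∈ S j) {l : List (I × A)} (h : IsWord Φ S l) : c * wprod l ∈ wspan Φ S := by
  classical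
  by_cases hj : ∀ y ∈ l.head?, j ≠ y.1
  · have h2 : c * wprod l = wprod ((j, cen Φ c) :: l) + (Φ c) • wprod l := by
      conv_lhs => rw [eq_cen_add Φ c]
      simp [add_mul, Algebra.algebraMap_eq_smul_one]
    rw [h2]
    exact add_mem (wprod_mem_wspan (h.cons (cen_mem hc) (apply_cen h1 c) hj))
      (Submodule.smul_mem _ _ (wprod_mem_wspan h))
  · cases l with
    | nil => simp at hj
    | cons x l =>
      have hx : j = x.1 := by
        by_contra hne
        exact hj (by simpa using hne)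
      subst hx
      have h2 : c * wprod (x :: l) =
          wprod ((x.1, cen Φ (c * x.2)) :: l) + (Φ (c * x.2)) • wprod l := by
        simp only [wprod_cons]
        rw [← mul_assoc]
        conv_lhs => rw [eq_cen_add Φ (c * x.2)]
        simp [add_mul, Algebra.algebraMap_eq_smul_one]
      rw [h2]
      have hm : c * x.2 ∈ S x.1 := mul_mem hc (h.2 x (by simp)).1
      exact add_mem (wprod_mem_wspan (h.tail.cons (cen_mem hm) (apply_cen h1 _) h.head))
        (Submodule.smul_mem _ _ (wprod_mem_wspan h.tail))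

theorem mul_wspan_mem {Φ : A →ₗ[ℂ] ℂ} (h1 : Φ 1 = 1) {S : I → StarSubalgebra ℂ A} {j : I} {c : A}
    (hc : c ∈ S j) {x : A} (hx : x ∈ wspan Φ S) : c * x ∈ wspan Φ S := by
  induction hx using Submodule.span_induction with
  | mem x hx =>
    obtain ⟨l, hl, rfl⟩ := hx
    exact mul_wprod_mem h1 hc hl
  | zero => simp
  | add x y _ _ hx hy => rw [mul_add]; exact add_mem hx hy
  | smul a x _ hx => rw [mul_smul_comm]; exact Submodule.smul_mem _ _ hx

/-- The subalgebra of elements whose left multiplication preserves the span of the words. -/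
noncomputable def leftAlg (Φ : A →ₗ[ℂ] ℂ) (S : I → StarSubalgebra ℂ A) : Subalgebra ℂ A where
  carrier := {c | ∀ x ∈ wspan Φ S, c * x ∈ wspan Φ S}
  mul_mem' := by
    intro a b ha hb x hx
    rw [mul_assoc]
    exact ha _ (hb _ hx)
  add_mem' := by
    intro a b ha hb x hx
    rw [add_mul]
    exact add_mem (ha _ hx) (hb _ hx)
  algebraMap_mem' := by
    intro r x hx
    rw [Algebra.algebraMap_eq_smul_one, smul_mul_assoc, one_mul]
    exact Submodule.smul_mem _ _ hx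

theorem adjoin_le_wspan {Φ : A →ₗ[ℂ] ℂ} (h1 : Φ 1 = 1) (S : I → StarSubalgebra ℂ A) {x : A}
    (hx : x ∈ StarAlgebra.adjoin ℂ (⋃ i, (S i : Set A))) : x ∈ wspan Φ S := by
  have h2 : x ∈ (StarAlgebra.adjoin ℂ (⋃ i, (S i : Set A))).toSubalgebra := hx
  rw [StarAlgebra.adjoin_toSubalgebra] at h2
  have h3 : Algebra.adjoin ℂ ((⋃ i, (S i : Set A)) ∪ star (⋃ i, (S i : Set A))) ≤
      leftAlg Φ S := by
    apply Algebra.adjoin_le
    intro c hc y hy
    rcases hc with hc | hc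
    · obtain ⟨i, hi⟩ := Set.mem_iUnion.mp hc
      exact mul_wspan_mem h1 hi hy
    · obtain ⟨i, hi⟩ := Set.mem_iUnion.mp (Set.mem_star.mp hc)
      have hi' : c ∈ S i := by
        have h5 : star c ∈ S i := hi
        have := star_mem h5
        simpa using this
      exact mul_wspan_mem h1 hi' hy
  have h4 := h3 h2 1 (by simpa using wprod_mem_wspan (Φ := Φ) (S := S) (l := []) ⟨by simp, by simp⟩)
  simpa using h4

/-- Two continuous functionals that agree on all the reduced centred words agree. -/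
theorem ext_of_words {Φ : A →ₗ[ℂ] ℂ} (h1 : Φ 1 = 1) (S : I → StarSubalgebra ℂ A)
    (hgen : (StarAlgebra.adjoin ℂ (⋃ i, (S i : Set A))).topologicalClosure = ⊤)
    {ω₁ ω₂ : A →ₗ[ℂ] ℂ} (hc₁ : Continuous ω₁) (hc₂ : Continuous ω₂)
    (h : ∀ l, IsWord Φ S l → ω₁ (wprod l) = ω₂ (wprod l)) (x : A) : ω₁ x = ω₂ x := by
  have hsp : ∀ y ∈ wspan Φ S, ω₁ y = ω₂ y := by
    intro y hy
    induction hy using Submodule.span_induction with
    | mem x hx =>
      obtain ⟨l, hl, rfl⟩ := hx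
      exact h l hl
    | zero => simp
    | add x y _ _ hx hy => rw [map_add, map_add, hx, hy]
    | smul a x _ hx => rw [map_smul, map_smul, hx]
  have hclosed : IsClosed {y : A | ω₁ y = ω₂ y} := isClosed_eq hc₁ hc₂
  have hx : x ∈ (StarAlgebra.adjoin ℂ (⋃ i, (S i : Set A))).topologicalClosure := by
    rw [hgen]; exact StarSubalgebra.mem_top
  have hx' : x ∈ closure ((StarAlgebra.adjoin ℂ (⋃ i, (S i : Set A)) : StarSubalgebra ℂ A) : Set A) := hx
  exact closure_minimal (fun y hy => hsp y (adjoin_le_wspan h1 S hy)) hclosed hx'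

end Pool.Agent.Lib.MP_f16f70_an
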